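import Pool.Agent.U536.CF.F
import Pool.Agent.Results.MP_f2148a_nt.SparseViolations
import Pool.Agent.Results.MP_f2148a_nt.AlmostAllK

/-!
# Mordell's equation for all `k` near an integer with a large common factor with a value of a multiplicative function

Let `f` be a positive multiplicative function of at most polynomial growth such that `f p ≤ M p` for the large primes `p`,
with different values at different large primes; for example Euler's function or the sum of the divisors. Let `G` have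
steps bounded below by a positive constant and growth at most `v^d`, for example `α v^d`. Let `b < 1` and `0 ≤ c < 2 b -
1`. Let `C > 0` and `A ≥ 2`. For all `m ≤ N` but `N exp (-(log N)^c)`, for EVERY integer `w ≥ exp ((log N)^b)` with
`gcd(w, f(m)) ≥ w^ρ`, NONE of the equations `y ^ 2 = x ^ 3 + k`, `k ≠ 0`, `||k| - G w| ≤ w ^ κ`, has an integral solution
with `|x| ≤ exp (|k| ^ (1 / 10000))` (first part), and none has an integral solution with `|x| ≤ |k| ^ A` violating Hall's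
inequality `max (|x|, |y|) ≤ C |k| ^ 3` (second part), if `κ ≥ 0`, `ρ ≤ 1` and `99 d / 100 + κ < ρ` in the first part, `d
(A / 4 + 1 / 6) + κ < ρ` in the second part. The integers `w` include all large divisors of `f(m)` and their multiples by
small integers; for Euler's function, the orders of the elements of the group of units modulo `m`.

Proof. Write `m = k u` with `u` squarefree and composed of primes larger than `N^(1/J)`, `J = (log N)^a`, and `k ≤ exp (4
(log N)^a)`; this is possible for all `m ≤ N` but very few. If `v ∣ f(k) f(u)`, then `v = g v'` with `g ∣ f(k)` and `v' ∣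
∏ f(p)`, and the number of such `u ≤ N / k` is at most `N / (k v')` times `(log N)^O(J)` times the number `τ_J(v')` of the
ordered factorizations of `v'` into `J` factors. The inequality `τ_J^q ≤ τ_K` for `K ≥ J^q` and Hölder's inequality bound
the sum over the sparse set of the exceptional `v`. The counts of the exceptional `k` are the theorems `AlmostAllK` and
`SparseViolations` of the starting library; the large divisors of the values of multiplicative functions form a set of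
density zero and are taken with very large multiplicities, and so the theorem does not follow from these counts alone.
-/

set_option autoImplicit false

namespace Pool.Agent.Results.MP_f2148a_nt.CommonFactors

open Pool.Agent.N733.TG (LM Expanding lm_totient lm_sigma expanding_pow)
open Pool.Agent.U536.CF (Common common_good common_of_dvd common_order)

/-- the equation `y ^ 2 = x ^ 3 + k` has no integral solution with `|x| ≤ exp (|k| ^ (1 / 10000))` -/
def NoPoint (k : ℤ) : Prop :=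
  ¬ ∃ x y : ℤ, y ^ 2 = x ^ 3 + k ∧ |(x : ℝ)| ≤ Real.exp (|(k : ℝ)| ^ ((1 : ℝ) / 10000))

/-- Hall's inequality with the constant `C` for the integral solutions of `y ^ 2 = x ^ 3 + k` with `|x| ≤ |k| ^ A` -/
def HallUpTo (C A : ℝ) (k : ℤ) : Prop :=
  ∀ x y : ℤ, y ^ 2 = x ^ 3 + k → |(x : ℝ)| ≤ |(k : ℝ)| ^ A → max |(x : ℝ)| |(y : ℝ)| ≤ C * |(k : ℝ)| ^ 3

theorem fin_aux (X : ℝ) (P : ℤ → Prop) : {k : ℤ | k ≠ 0 ∧ |(k : ℝ)| ≤ X ∧ P k}.Finite := by
  apply (Set.finite_Icc (-⌊X⌋) ⌊X⌋).subset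
  intro k hk
  have h1 := abs_le.1 hk.2.1
  rw [Set.mem_Icc, neg_le]
  constructor
  · apply Int.le_floor.2
    push_cast
    linarith
  · exact Int.le_floor.2 h1.2

/-- **Mordell's equation for all `k` near an integer with a large common factor with a value of a multiplicative function.**
Let `f` be multiplicative and positive, of at most polynomial growth, with `f p ≤ M p` at the large primes, and injective
there. Let `G` have steps `≥ a > 0` and growth at most `v^d`. Let `b < 1` and `0 ≤ c < 2 b - 1`, `κ ≥ 0`, `ρ ≤ 1` and `99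
d / 100 + κ < ρ` in the first part, `d (A / 4 + 1 / 6) + κ < ρ` in the second part. For all large `N`, for all `m ≤ N` but
`N exp (-(log N)^c)`, for EVERY integer `w ≥ exp ((log N)^b)` with `gcd(w, f(m)) ≥ w^ρ`, NONE of the equations `y ^ 2 = x
^ 3 + k`, `k ≠ 0`, `||k| - G w| ≤ w ^ κ`, has an integral solution with `|x| ≤ exp (|k| ^ (1 / 10000))` (first part), and
none has an integral solution with `|x| ≤ |k| ^ A` violating Hall's inequality `max (|x|, |y|) ≤ C |k| ^ 3` (second part).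
All divisors `w ≥ exp ((log N)^b)` of `f(m)` are such integers `w`, and for Euler's function the orders `≥ exp ((log
N)^b)` of the units modulo `m`. Euler's function and the sum of the divisors are examples of `f`, and `α v^d` with `α >
0`, `d ≥ 1` is an example of `G`. -/
theorem result :
    (∀ f : ℕ → ℕ, LM f → ∀ (G : ℕ → ℝ) (d : ℝ), Expanding G d → ∀ κ ρ b c : ℝ, 0 ≤ κ → ρ ≤ 1 → b < 1 → 0 ≤ c →
      c < 2 * b - 1 →
      (d * (99 / 100) + κ < ρ → ∃ N₀ : ℕ, ∀ N : ℕ, N₀ ≤ N →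
        ({m : ℕ | 1 ≤ m ∧ m ≤ N ∧ ¬ ∀ w : ℕ, Common f b ρ N m w → ∀ k : ℤ, k ≠ 0 → |(|k| : ℝ) - G w| ≤ (w : ℝ) ^ κ →
          NoPoint k}.ncard : ℝ) ≤ N * Real.exp (-(Real.log N ^ c))) ∧
      ∀ C A : ℝ, 0 < C → 2 ≤ A → d * (A / 4 + 1 / 6) + κ < ρ → ∃ N₀ : ℕ, ∀ N : ℕ, N₀ ≤ N →
        ({m : ℕ | 1 ≤ m ∧ m ≤ N ∧ ¬ ∀ w : ℕ, Common f b ρ N m w → ∀ k : ℤ, k ≠ 0 → |(|k| : ℝ) - G w| ≤ (w : ℝ) ^ κ →
          HallUpTo C A k}.ncard : ℝ) ≤ N * Real.exp (-(Real.log N ^ c))) ∧
    (LM Nat.totient ∧ LM (fun m => ∑ d ∈ m.divisors, d)) ∧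
    (∀ α d : ℝ, 0 < α → 1 ≤ d → Expanding (fun v => α * (v : ℝ) ^ d) d) ∧
    (∀ (f : ℕ → ℕ) (b ρ : ℝ) (N m w : ℕ), ρ ≤ 1 → Real.exp (Real.log N ^ b) ≤ (w : ℝ) → w ∣ f m → Common f b ρ N m w) ∧
    ∀ (b ρ : ℝ) (N m : ℕ), ρ ≤ 1 → ∀ x : (ZMod m)ˣ, Real.exp (Real.log N ^ b) ≤ (orderOf x : ℝ) →
      Common Nat.totient b ρ N m (orderOf x) := by
  refine ⟨?_, ⟨lm_totient, lm_sigma⟩, fun α d hα hd => expanding_pow hα hd, fun f b ρ N m w hρ hw hd => common_of_dvd hρ hw hd,
    fun b ρ N m hρ x hx => common_order hρ x hx⟩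
  intro f hf G d hG κ ρ b c hκ hρ hb hc hcb
  refine ⟨fun h1 => ?_, fun C A hC hA h1 => ?_⟩
  · refine common_good (fun k : ℤ => k ≠ 0) NoPoint (fun k : ℤ => |(k : ℝ)|) hf hG (s := 99 / 100) (by norm_num) hκ h1 hρ
      hb hc hcb (fun ε hε => ?_)
    obtain ⟨K, hK⟩ := AlmostAllK.result
    refine ⟨K, fun X hX => ?_⟩
    have hK0 : 0 ≤ K := by
      have := hK 1 le_rfl
      rw [Real.one_rpow, Real.one_rpow, mul_one] at this
      exact le_trans (Nat.cast_nonneg _) this
    have hsub : {k : ℤ | (k ≠ 0 ∧ ¬ NoPoint k) ∧ |(k : ℝ)| ≤ X} ⊆ {k : ℤ | k ≠ 0 ∧ |(k : ℝ)| ≤ X ∧ ∃ x y : ℤ,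
        y ^ 2 = x ^ 3 + k ∧ |(x : ℝ)| ≤ Real.exp (X ^ ((1 : ℝ) / 10000))} := by
      rintro k ⟨⟨h3, h2⟩, h5⟩
      unfold NoPoint at h2
      rw [not_not] at h2
      obtain ⟨x, y, e1, e2⟩ := h2
      refine ⟨h3, h5, x, y, e1, e2.trans (Real.exp_le_exp.2 ?_)⟩
      exact Real.rpow_le_rpow (abs_nonneg _) h5 (by norm_num)
    refine ⟨(fin_aux X _).subset hsub, ?_⟩
    refine le_trans ?_ ((hK X hX).trans (mul_le_mul_of_nonneg_left
      (Real.rpow_le_rpow_of_exponent_le hX (by linarith : (99 : ℝ) / 100 ≤ 99 / 100 + ε)) hK0))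
    exact_mod_cast Set.ncard_le_ncard hsub (fin_aux X _)
  · refine common_good (fun k : ℤ => k ≠ 0) (HallUpTo C A) (fun k : ℤ => |(k : ℝ)|) hf hG (s := A / 4 + 1 / 6)
      (by linarith) hκ h1 hρ hb hc hcb (fun ε hε => ?_)
    obtain ⟨M, hM⟩ := SparseViolations.result C A ε hC hA hε
    refine ⟨M, fun X hX => ?_⟩
    have hsub : {k : ℤ | (k ≠ 0 ∧ ¬ HallUpTo C A k) ∧ |(k : ℝ)| ≤ X} ⊆ {k : ℤ | k ≠ 0 ∧ |(k : ℝ)| ≤ X ∧ ∃ x y : ℤ,
        y ^ 2 = x ^ 3 + k ∧ C * |(k : ℝ)| ^ 3 < max |(x : ℝ)| |(y : ℝ)| ∧ |(x : ℝ)| ≤ X ^ A} := by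
      rintro k ⟨⟨h3, h2⟩, h5⟩
      unfold HallUpTo at h2
      push Not at h2
      obtain ⟨x, y, e1, e2, e3⟩ := h2
      exact ⟨h3, h5, x, y, e1, e3, e2.trans (Real.rpow_le_rpow (abs_nonneg _) h5 (by linarith))⟩
    refine ⟨(fin_aux X _).subset hsub, ?_⟩
    refine le_trans ?_ (hM X hX)
    exact_mod_cast Set.ncard_le_ncard hsub (fin_aux X _)

end Pool.Agent.Results.MP_f2148a_nt.CommonFactors
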