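import Pool.Agent.U536.DS.F
import Pool.Agent.Results.MP_f2148a_nt.SparseViolations
import Pool.Agent.Results.MP_f2148a_nt.AlmostAllK

/-!
# Mordell's equation for all `k` near an integral combination of two divisors of a value of a multiplicative function

Let `f` be a positive multiplicative function of at most polynomial growth such that `f p ≤ M p` for the large primes `p`,
with different values at different large primes; for example Euler's function or the sum of the divisors. Let `G` have steps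
bounded below by a positive constant and growth at most `v^d`, for example `α v^d`. Let `b < 1` and `0 ≤ c < 2 b - 1`. Let
`C > 0` and `A ≥ 2`. For all `m ≤ N` but `N exp (-(log N)^c)`, for EVERY integer `w ≥ exp ((log N)^b)` of the form `w = u s
+ v t` with divisors `s`, `t` of `f(m)` and integers `|u|, |v| ≤ exp ((log N)^θ)`, NONE of the equations `y ^ 2 = x ^ 3 +
k`, `k ≠ 0`, `||k| - G w| ≤ w ^ κ`, has an integral solution with `|x| ≤ exp (|k| ^ (1 / 10000))` (first part), and none has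
an integral solution with `|x| ≤ |k| ^ A` violating Hall's inequality `max (|x|, |y|) ≤ C |k| ^ 3` (second part), if `κ ≥
0`, `θ < b` and `99 d / 100 + κ < 1` in the first part, `d (A / 4 + 1 / 6) + κ < 1` in the second part. The integers `w`
include all large divisors of `f(m)` and the large sums and differences of ANY two divisors of `f(m)`; for Euler's function,
those of the orders of any two units modulo `m`.

Proof. Write `m = k u` with `u` squarefree and composed of primes larger than `N^(1/J)`, `J = (log N)^a`, and `k ≤ exp (4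
(log N)^a)`; this is possible for all `m ≤ N` but very few. If `v ∣ f(k) f(u)`, then `v = g v'` with `g ∣ f(k)` and `v' ∣ ∏
f(p)`, and the number of such `u ≤ N / k` is at most `N / (k v')` times `(log N)^O(J)` times the number `τ_J(v')` of the
ordered factorizations of `v'` into `J` factors. Take for `v` the least common multiple of `s` and `t`: the sum of `1 / [s,
t]` over the pairs `s, t ≤ X` with `u s + v t = w` is at most `4 U (1 + log X) τ(w) / w` if `|u|, |v| ≤ U`; the inequality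
`τ_J^q ≤ τ_K` for `K ≥ J^q` and Hölder's inequality bound the sum over the pairs with exceptional `w`. The integers of the
hand-in `CommonFactors` of this page have a large common factor with `f(m)`; the sums and differences of two divisors of
`f(m)` have in general none. The counts of the exceptional `k` are the theorems `AlmostAllK` and `SparseViolations` of the
starting library; the pairs of divisors of the `f(m)` are far more numerous than the `m`, and so the theorem does not follow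
from these counts alone.
-/

set_option autoImplicit false

namespace Pool.Agent.Results.MP_f2148a_nt.DivisorSums

open Pool.Agent.N733.TG (LM Expanding lm_totient lm_sigma expanding_pow)
open Pool.Agent.U536.DS (Comb comb_good comb_pm comb_orders)

/-- the equation `y ^ 2 = x ^ 3 + k` has no integral solution with `|x| ≤ exp (|k| ^ (1 / 10000))` -/
def NoPoint (k : ℤ) : Prop :=
  ¬ ∃ x y : ℤ, y ^ 2 = x ^ 3 + k ∧ |(x : ℝ)| ≤ Real.exp (|(k : ℝ)| ^ ((1 : ℝ) / 10000))

/-- Hall's inequality with the constant `C` for the integral solutions of `y ^ 2 = x ^ 3 + k` with `|x| ≤ |k| ^ A` -/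
def HallUpTo (C A : ℝ) (k : ℤ) : Prop :=
  ∀ x y : ℤ, y ^ 2 = x ^ 3 + k → |(x : ℝ)| ≤ |(k : ℝ)| ^ A → max |(x : ℝ)| |(y : ℝ)| ≤ C * |(k : ℝ)| ^ 3

theorem fin_aux (X : ℝ) (P : ℤ → Prop) : {k : ℤ | k ≠ 0 ∧ |(k : ℝ)| ≤ X ∧ P k}.Finite := by
  apply (Set.finite_Icc (-⌊X⌋) ⌊X⌋).subset
  intro k hk
  have h1 := abs_le.1 hk.2.1
  rw [Set.mem_Icc, neg_le]
  constructor
  · apply Int.le_floor.2
    push_cast
    linarith
  · exact Int.le_floor.2 h1.2

/-- **Mordell's equation for all `k` near an integral combination of two divisors of a value of a multiplicative function.** Let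
`f` be multiplicative and positive, of at most polynomial growth, with `f p ≤ M p` at the large primes, and injective there.
Let `G` have steps `≥ a > 0` and growth at most `v^d`. Let `b < 1` and `0 ≤ c < 2 b - 1`, `κ ≥ 0`, `θ < b` and `99 d / 100 +
κ < 1` in the first part, `d (A / 4 + 1 / 6) + κ < 1` in the second part. For all large `N`, for all `m ≤ N` but `N exp
(-(log N)^c)`, for EVERY integer `w ≥ exp ((log N)^b)` of the form `w = u s + v t` with divisors `s`, `t` of `f(m)` and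
integers `|u|, |v| ≤ exp ((log N)^θ)`, NONE of the equations `y ^ 2 = x ^ 3 + k`, `k ≠ 0`, `||k| - G w| ≤ w ^ κ`, has an
integral solution with `|x| ≤ exp (|k| ^ (1 / 10000))` (first part), and none has an integral solution with `|x| ≤ |k| ^ A`
violating Hall's inequality `max (|x|, |y|) ≤ C |k| ^ 3` (second part). All the sums and differences `≥ exp ((log N)^b)` of
two divisors of `f(m)` are such integers `w`, and for Euler's function those of the orders of two units modulo `m`. Euler's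
function and the sum of the divisors are examples of `f`, and `α v^d` with `α > 0`, `d ≥ 1` is an example of `G`. -/
theorem result :
    (∀ f : ℕ → ℕ, LM f → ∀ (G : ℕ → ℝ) (d : ℝ), Expanding G d → ∀ κ θ b c : ℝ, 0 ≤ κ → θ < b → b < 1 → 0 ≤ c →
      c < 2 * b - 1 →
      (d * (99 / 100) + κ < 1 → ∃ N₀ : ℕ, ∀ N : ℕ, N₀ ≤ N →
        ({m : ℕ | 1 ≤ m ∧ m ≤ N ∧ ¬ ∀ w : ℕ, Comb f b θ N m w → ∀ k : ℤ, k ≠ 0 → |(|k| : ℝ) - G w| ≤ (w : ℝ) ^ κ →
          NoPoint k}.ncard : ℝ) ≤ N * Real.exp (-(Real.log N ^ c))) ∧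
      ∀ C A : ℝ, 0 < C → 2 ≤ A → d * (A / 4 + 1 / 6) + κ < 1 → ∃ N₀ : ℕ, ∀ N : ℕ, N₀ ≤ N →
        ({m : ℕ | 1 ≤ m ∧ m ≤ N ∧ ¬ ∀ w : ℕ, Comb f b θ N m w → ∀ k : ℤ, k ≠ 0 → |(|k| : ℝ) - G w| ≤ (w : ℝ) ^ κ →
          HallUpTo C A k}.ncard : ℝ) ≤ N * Real.exp (-(Real.log N ^ c))) ∧
    (LM Nat.totient ∧ LM (fun m => ∑ d ∈ m.divisors, d)) ∧
    (∀ α d : ℝ, 0 < α → 1 ≤ d → Expanding (fun v => α * (v : ℝ) ^ d) d) ∧
    (∀ (f : ℕ → ℕ) (b θ : ℝ) (N m s t : ℕ), s ∣ f m → t ∣ f m →
      (Real.exp (Real.log N ^ b) ≤ ((s + t : ℕ) : ℝ) → Comb f b θ N m (s + t)) ∧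
      (Real.exp (Real.log N ^ b) ≤ ((s - t : ℕ) : ℝ) → Comb f b θ N m (s - t)) ∧
      (Real.exp (Real.log N ^ b) ≤ (s : ℝ) → Comb f b θ N m s)) ∧
    ∀ (b θ : ℝ) (N m : ℕ) (x y : (ZMod m)ˣ),
      (Real.exp (Real.log N ^ b) ≤ ((orderOf x + orderOf y : ℕ) : ℝ) → Comb Nat.totient b θ N m (orderOf x + orderOf y)) ∧
      (Real.exp (Real.log N ^ b) ≤ ((orderOf x - orderOf y : ℕ) : ℝ) → Comb Nat.totient b θ N m (orderOf x - orderOf y)) := by
  refine ⟨?_, ⟨lm_totient, lm_sigma⟩, fun α d hα hd => expanding_pow hα hd, fun f b θ N m s t hs ht => comb_pm hs ht,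
    fun b θ N m x y => comb_orders x y⟩
  intro f hf G d hG κ θ b c hκ hθ hb hc hcb
  refine ⟨fun h1 => ?_, fun C A hC hA h1 => ?_⟩
  · refine comb_good (fun k : ℤ => k ≠ 0) NoPoint (fun k : ℤ => |(k : ℝ)|) hf hG (s := 99 / 100) (by norm_num) hκ h1 hθ
      hb hc hcb (fun ε hε => ?_)
    obtain ⟨K, hK⟩ := AlmostAllK.result
    refine ⟨K, fun X hX => ?_⟩
    have hK0 : 0 ≤ K := by
      have := hK 1 le_rfl
      rw [Real.one_rpow, Real.one_rpow, mul_one] at this
      exact le_trans (Nat.cast_nonneg _) this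
    have hsub : {k : ℤ | (k ≠ 0 ∧ ¬ NoPoint k) ∧ |(k : ℝ)| ≤ X} ⊆ {k : ℤ | k ≠ 0 ∧ |(k : ℝ)| ≤ X ∧ ∃ x y : ℤ,
        y ^ 2 = x ^ 3 + k ∧ |(x : ℝ)| ≤ Real.exp (X ^ ((1 : ℝ) / 10000))} := by
      rintro k ⟨⟨h3, h2⟩, h5⟩
      unfold NoPoint at h2
      rw [not_not] at h2
      obtain ⟨x, y, e1, e2⟩ := h2
      refine ⟨h3, h5, x, y, e1, e2.trans (Real.exp_le_exp.2 ?_)⟩
      exact Real.rpow_le_rpow (abs_nonneg _) h5 (by norm_num)
    refine ⟨(fin_aux X _).subset hsub, ?_⟩
    refine le_trans ?_ ((hK X hX).trans (mul_le_mul_of_nonneg_left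
      (Real.rpow_le_rpow_of_exponent_le hX (by linarith : (99 : ℝ) / 100 ≤ 99 / 100 + ε)) hK0))
    exact_mod_cast Set.ncard_le_ncard hsub (fin_aux X _)
  · refine comb_good (fun k : ℤ => k ≠ 0) (HallUpTo C A) (fun k : ℤ => |(k : ℝ)|) hf hG (s := A / 4 + 1 / 6)
      (by linarith) hκ h1 hθ hb hc hcb (fun ε hε => ?_)
    obtain ⟨M, hM⟩ := SparseViolations.result C A ε hC hA hε
    refine ⟨M, fun X hX => ?_⟩
    have hsub : {k : ℤ | (k ≠ 0 ∧ ¬ HallUpTo C A k) ∧ |(k : ℝ)| ≤ X} ⊆ {k : ℤ | k ≠ 0 ∧ |(k : ℝ)| ≤ X ∧ ∃ x y : ℤ,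
        y ^ 2 = x ^ 3 + k ∧ C * |(k : ℝ)| ^ 3 < max |(x : ℝ)| |(y : ℝ)| ∧ |(x : ℝ)| ≤ X ^ A} := by
      rintro k ⟨⟨h3, h2⟩, h5⟩
      unfold HallUpTo at h2
      push Not at h2
      obtain ⟨x, y, e1, e2, e3⟩ := h2
      exact ⟨h3, h5, x, y, e1, e3, e2.trans (Real.rpow_le_rpow (abs_nonneg _) h5 (by linarith))⟩
    refine ⟨(fin_aux X _).subset hsub, ?_⟩
    refine le_trans ?_ (hM X hX)
    exact_mod_cast Set.ncard_le_ncard hsub (fin_aux X _)

end Pool.Agent.Results.MP_f2148a_nt.DivisorSums
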