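import Pool.Agent.U449.BV.G
import Pool.Agent.Results.MP_f2148a_nt.AlmostAllK
import Pool.Agent.Results.MP_f2148a_nt.SparseViolations

/-!
# Hall's conjecture up to exponential heights for `k` near values of polynomials in two variables modulo `p` on arbitrary sets

Let `p` be a large prime, `f(x, y)` ANY polynomial of degree at most `d` over the field of `p` elements with a monomial which
contains both variables (for example `f = x y`), let `A₁`, `A₂` be ARBITRARY sets of at least `p ^ δ` residues, and `g`, `h`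
ARBITRARY functions from the residues to the residues. For all the pairs `(a, b)` in `A₁ × A₂`, apart from a proportion of at most
`p ^ (-ρ)`, with `v` the least residue of `f(a, b) + g(a) + h(b)`: NONE of the equations `y ^ 2 = x ^ 3 + k`, `k ≠ 0`,
`||k| - v| ≤ p ^ κ`, has an integral solution with `|x| ≤ exp (|k| ^ (1 / 10000))`, if `99 / 100 + κ < δ`; and none of them has an
integral solution with `|x| ≤ |k| ^ A` violating Hall's inequality with the constant `C`, if `A / 4 + 1 / 6 + κ < δ`, `A ≥ 2`. More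
generally, this holds for the values `F(a, b)` of all functions of two variables with few coincidences (`Rare`).

Since the sets and the functions `g` and `h` are arbitrary, the values have no arithmetic structure, and a residue may be taken
by very many pairs. So this does not follow from the size of the set of the exceptional `k` (starting theorems `AlmostAllK` and
`SparseViolations`, used here). Proof: the inequality of Cauchy and Schwarz; for most pairs `a, a'` the difference
`F(a, b) - F(a', b)` is small for few `b` (`Pool.Agent.U449.BV`).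
-/

set_option autoImplicit false

namespace Pool.Agent.Results.MP_f2148a_nt.MixedPolynomials

open Finset
open Pool.Agent.U449.BV (Rare OnProducts on_products_int residues)

/-- the equation `y ^ 2 = x ^ 3 + k` has no integral solution with `|x| ≤ exp (|k| ^ (1 / 10000))` -/
def NoPoint (k : ℤ) : Prop :=
  ¬ ∃ x y : ℤ, y ^ 2 = x ^ 3 + k ∧ |(x : ℝ)| ≤ Real.exp (|(k : ℝ)| ^ ((1 : ℝ) / 10000))

/-- Hall's inequality with the constant `C` for the integral solutions of `y ^ 2 = x ^ 3 + k` with `|x| ≤ |k| ^ A` -/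
def HallUpTo (C A : ℝ) (k : ℤ) : Prop :=
  ∀ x y : ℤ, y ^ 2 = x ^ 3 + k → |(x : ℝ)| ≤ |(k : ℝ)| ^ A → max |(x : ℝ)| |(y : ℝ)| ≤ C * |(k : ℝ)| ^ 3

theorem fin_aux (X : ℕ) (P : ℤ → Prop) : {k : ℤ | k ≠ 0 ∧ |(k : ℝ)| ≤ X ∧ P k}.Finite := by
  apply (Set.finite_Icc (-(X : ℤ)) X).subset
  intro k hk
  have := hk.2.1
  rw [← Int.cast_abs] at this
  exact abs_le.1 (by exact_mod_cast this)

/-- Every `k ≠ 0` with `||k| - v| ≤ W` has the property `Good`. -/
def Near (Good : ℤ → Prop) (W v : ℝ) : Prop := ∀ k : ℤ, k ≠ 0 → |(|k| : ℝ) - v| ≤ W → Good k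

/-- **Mordell's equation near the values of functions of two variables with few coincidences.** Let `κ ≥ 0`. (1) For almost all
values (`OnProducts`, sets of at least `X ^ δ` elements, `99 / 100 + κ < δ ≤ 1`), no equation `y ^ 2 = x ^ 3 + k` with `|k|` within
`X ^ κ` of the value has an integral solution with `|x| ≤ exp (|k| ^ (1 / 10000))`. (2) The same for Hall's inequality and the
solutions with `|x| ≤ |k| ^ A`, `A ≥ 2`, `A / 4 + 1 / 6 + κ < δ ≤ 1`. (3) The least residues modulo a prime `p` of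
`f(a, b) + g(a) + h(b)` are such a function, with `X = p`. -/
theorem result :
    (∀ κ : ℝ, 0 ≤ κ → OnProducts (99 / 100 + κ) κ (Near NoPoint) ∧
      ∀ C A : ℝ, 0 < C → 2 ≤ A → OnProducts (A / 4 + 1 / 6 + κ) κ (Near (HallUpTo C A))) ∧
    ∀ (p : ℕ) [Fact p.Prime] (d : ℕ) (f : MvPolynomial (Fin 2) (ZMod p)), f.totalDegree ≤ d →
      (∃ m ∈ f.support, m 0 ≠ 0 ∧ m 1 ≠ 0) → ∀ (g h : ZMod p → ZMod p) (A B : Finset (ZMod p)),
        Rare d A B (fun a b => (((MvPolynomial.eval ![a, b] f + g a + h b).val : ℕ) : ℝ)) := by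
  refine ⟨fun κ hκ => ⟨?_, fun C A hC hA => ?_⟩, residues⟩
  · refine on_products_int (Good := NoPoint) (s := 99 / 100) (by norm_num) hκ (fun ε hε => ?_)
    obtain ⟨K, hK⟩ := Pool.Agent.Results.MP_f2148a_nt.AlmostAllK.result
    refine ⟨K, fun X hX => ?_⟩
    have hX1 : (1 : ℝ) ≤ X := by exact_mod_cast hX
    have hK0 : 0 ≤ K := by
      have := hK 1 le_rfl
      rw [Real.one_rpow, Real.one_rpow, mul_one] at this
      exact le_trans (Nat.cast_nonneg _) this
    refine le_trans ?_ ((hK X hX1).trans (mul_le_mul_of_nonneg_left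
      (Real.rpow_le_rpow_of_exponent_le hX1 (by linarith)) hK0))
    have : {b : ℤ | b ≠ 0 ∧ |b| ≤ (X : ℤ) ∧ ¬ NoPoint b} ⊆
        {k : ℤ | k ≠ 0 ∧ |(k : ℝ)| ≤ X ∧ ∃ x y : ℤ, y ^ 2 = x ^ 3 + k ∧
        |(x : ℝ)| ≤ Real.exp ((X : ℝ) ^ ((1 : ℝ) / 10000))} := by
      rintro k ⟨h3, h4, h2⟩
      have h5 : |(k : ℝ)| ≤ X := by
        rw [← Int.cast_abs]
        exact_mod_cast h4
      unfold NoPoint at h2
      rw [not_not] at h2
      obtain ⟨x, y, e1, e2⟩ := h2
      refine ⟨h3, h5, x, y, e1, e2.trans (Real.exp_le_exp.2 ?_)⟩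
      exact Real.rpow_le_rpow (abs_nonneg _) h5 (by norm_num)
    exact_mod_cast Set.ncard_le_ncard this (fin_aux X _)
  · refine on_products_int (Good := HallUpTo C A) (s := A / 4 + 1 / 6) (by linarith) hκ (fun ε hε => ?_)
    obtain ⟨M, hM⟩ := Pool.Agent.Results.MP_f2148a_nt.SparseViolations.result C A ε hC hA hε
    refine ⟨M, fun X hX => ?_⟩
    have hX1 : (1 : ℝ) ≤ X := by exact_mod_cast hX
    refine le_trans ?_ (hM X hX1)
    have : {b : ℤ | b ≠ 0 ∧ |b| ≤ (X : ℤ) ∧ ¬ HallUpTo C A b} ⊆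
        {k : ℤ | k ≠ 0 ∧ |(k : ℝ)| ≤ X ∧ ∃ x y : ℤ, y ^ 2 = x ^ 3 + k ∧
        C * |(k : ℝ)| ^ 3 < max |(x : ℝ)| |(y : ℝ)| ∧ |(x : ℝ)| ≤ (X : ℝ) ^ A} := by
      rintro k ⟨h3, h4, h2⟩
      have h5 : |(k : ℝ)| ≤ X := by
        rw [← Int.cast_abs]
        exact_mod_cast h4
      unfold HallUpTo at h2
      push Not at h2
      obtain ⟨x, y, e1, e2, e3⟩ := h2
      exact ⟨h3, h5, x, y, e1, e3, e2.trans (Real.rpow_le_rpow (abs_nonneg _) h5 (by linarith))⟩
    exact_mod_cast Set.ncard_le_ncard this (fin_aux X _)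

end Pool.Agent.Results.MP_f2148a_nt.MixedPolynomials
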