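import Mathlib
import Pool.Agent.U964.ML.Hall

/-!
# Hall's conjecture for all solutions of Mordell's equations for which `x³ / y²` is almost a power, with any exponent

Let `S` be a finite set of primes. We prove the bound of Hall's conjecture, in fact
`max (|x|, |y|) ≤ C |k| ^ (n / (2 (n - 2)) + ε)`, for all solutions of all equations `y² = x³ + k`, `k ≠ 0`, for which
the rational number `x³ / y²` is an `n`-th power up to the sign and up to the primes of `S`, for some `n ≥ 3`,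
with a constant `C` which depends on `S` and `ε` only, not on `n`. (The exponent is at most `3 / 2 + ε`, less than the
exponent `3` of the conjecture.) Equivalently `|y² - x³| ≥ max (|x|³, y²) ^ (1 - 2 / n - ε) / C`.

For instance `x = s X ^ n`, `y = t Y ^ n` with integers `s`, `t` composed of primes of `S`; but `x` and `y` may have an
arbitrary common factor, and they need not be powers.
-/

set_option autoImplicit false

namespace Pool.Agent.Results.MP_f2148a_nt.PowerQuotients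

/-- up to the sign and up to the primes in `S`, the rational number `r` is an `n`-th power -/
def IsAlmostPower (S : Finset ℕ) (n : ℕ) (r : ℚ) : Prop :=
  ∀ q : ℕ, q.Prime → q ∉ S → (n : ℤ) ∣ padicValRat q r

lemma main (S : Finset ℕ) (η : ℝ) (hη : 0 < η) : ∃ κ : ℝ, 0 < κ ∧ ∀ k x y : ℤ, x ≠ 0 → y ≠ 0 →
    k ≠ 0 → y ^ 2 = x ^ 3 + k → ∀ n : ℕ, 1 ≤ n →
      IsAlmostPower S n ((x : ℚ) ^ 3 / (y : ℚ) ^ 2) →
      κ * (max (|(x : ℝ)| ^ 3) ((y : ℝ) ^ 2)) ^ (1 - 2 / (n : ℝ) - η) ≤ |(k : ℝ)| := by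
  obtain ⟨κ, hκ, h⟩ := Pool.Agent.U964.ML.gap_all S η hη
  refine ⟨min κ 1, lt_min hκ one_pos, ?_⟩
  intro k x y hx hy hk hxy n hn hAP
  obtain ⟨X, hX⟩ : ∃ X : ℕ, X = x.natAbs ^ 3 := ⟨_, rfl⟩
  obtain ⟨Y, hY⟩ : ∃ Y : ℕ, Y = y.natAbs ^ 2 := ⟨_, rfl⟩
  have hX1 : 1 ≤ X := by rw [hX]; exact pow_pos (Int.natAbs_pos.2 hx) 3
  have hY1 : 1 ≤ Y := by rw [hY]; exact pow_pos (Int.natAbs_pos.2 hy) 2
  have hXr : (X:ℝ) = |(x:ℝ)| ^ 3 := by rw [hX]; push_cast; rw [Nat.cast_natAbs, Int.cast_abs]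
  have hYr : (Y:ℝ) = (y:ℝ) ^ 2 := by
    rw [hY]
    push_cast
    rw [Nat.cast_natAbs, Int.cast_abs, sq_abs]
  have hXr1 : (1:ℝ) ≤ X := by exact_mod_cast hX1
  have hYr1 : (1:ℝ) ≤ Y := by exact_mod_cast hY1
  obtain ⟨V, hV⟩ : ∃ V : ℝ, V = max (X:ℝ) Y := ⟨_, rfl⟩
  have hV1 : 1 ≤ V := by rw [hV]; exact le_max_of_le_left hXr1
  have hV0 : 0 < V := by linarith
  rw [← hXr, ← hYr, ← hV]
  have hVe : 0 < V ^ (1 - 2 / (n:ℝ) - η) := Real.rpow_pos_of_pos hV0 _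
  have hnr : (0:ℝ) < n := by exact_mod_cast hn
  have hVle : V ^ (1 - 2 / (n:ℝ) - η) ≤ V := by
    calc V ^ (1 - 2 / (n:ℝ) - η) ≤ V ^ (1:ℝ) := by
          apply Real.rpow_le_rpow_of_exponent_le hV1
          have : 0 < 2 / (n:ℝ) := by positivity
          linarith
      _ = V := Real.rpow_one _
  have hkr : (k:ℝ) = (y:ℝ) ^ 2 - (x:ℝ) ^ 3 := by
    have h1 : k = y ^ 2 - x ^ 3 := by linarith
    rw [h1]
    push_cast
    rfl
  rcases lt_or_gt_of_ne hx with hneg | hpos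
  · -- `x < 0`
    have hxr : (x:ℝ) < 0 := by exact_mod_cast hneg
    have h1 : (x:ℝ) ^ 3 = -(X:ℝ) := by
      rw [hXr, abs_of_neg hxr]
      ring
    rw [hkr, h1, ← hYr, sub_neg_eq_add, abs_of_pos (by linarith)]
    calc min κ 1 * V ^ (1 - 2 / (n:ℝ) - η) ≤ 1 * V :=
          mul_le_mul (min_le_right _ _) hVle hVe.le zero_le_one
      _ = V := one_mul _
      _ ≤ Y + X := by rw [hV]; exact max_le (by linarith) (by linarith)
  · -- `x > 0`
    have hxr : (0:ℝ) < x := by exact_mod_cast hpos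
    have h1 : (x:ℝ) ^ 3 = (X:ℝ) := by rw [hXr, abs_of_pos hxr]
    rw [hkr, h1, ← hYr, abs_sub_comm]
    have hne : X ≠ Y := by
      intro h2
      have h3 : (X:ℝ) = Y := by rw [h2]
      have h4 : (k:ℝ) = 0 := by rw [hkr, h1, h3, hYr, sub_self]
      exact hk (by exact_mod_cast h4)
    have h2 := h n hn X Y hX1 hY1 hne (by
      intro q hq hqS
      have : Fact q.Prime := ⟨hq⟩
      have h3 := hAP q hq hqS
      have hxq : (x:ℚ) ≠ 0 := by exact_mod_cast hx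
      have hyq : (y:ℚ) ≠ 0 := by exact_mod_cast hy
      rw [padicValRat.div (pow_ne_zero 3 hxq) (pow_ne_zero 2 hyq)] at h3
      have e1 : padicValRat q ((x:ℚ) ^ 3) = (X.factorization q : ℤ) := by
        rw [← Int.cast_pow, padicValRat.of_int, padicValInt, Int.natAbs_pow, ← hX,
          Nat.factorization_def _ hq]
      have e2 : padicValRat q ((y:ℚ) ^ 2) = (Y.factorization q : ℤ) := by
        rw [← Int.cast_pow, padicValRat.of_int, padicValInt, Int.natAbs_pow, ← hY,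
          Nat.factorization_def _ hq]
      rwa [e1, e2] at h3)
    rw [← hV] at h2
    exact (mul_le_mul_of_nonneg_right (min_le_left _ _) hVe.le).trans h2

theorem result (S : Finset ℕ) (ε : ℝ) (hε : 0 < ε) : ∃ C : ℝ, 0 < C ∧ ∀ k x y : ℤ, k ≠ 0 →
    y ^ 2 = x ^ 3 + k → x ≠ 0 → y ≠ 0 → ∀ n : ℕ, 3 ≤ n →
      IsAlmostPower S n ((x : ℚ) ^ 3 / (y : ℚ) ^ 2) →
      (max |(x : ℝ)| |(y : ℝ)| ≤ C * |(k : ℝ)| ^ ((n : ℝ) / (2 * (n - 2)) + ε)) ∧
      (max (|(x : ℝ)| ^ 3) ((y : ℝ) ^ 2)) ^ (1 - 2 / (n : ℝ) - ε) ≤ C * |(k : ℝ)| := by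
  obtain ⟨η, hη⟩ : ∃ η : ℝ, η = min (min (1 / 12) (ε / 6)) ε := ⟨_, rfl⟩
  have hη0 : 0 < η := by rw [hη]; exact lt_min (lt_min (by norm_num) (by linarith)) hε
  have hη1 : η ≤ 1 / 12 := by rw [hη]; exact (min_le_left _ _).trans (min_le_left _ _)
  have hη2 : η ≤ ε / 6 := by rw [hη]; exact (min_le_left _ _).trans (min_le_right _ _)
  have hη3 : η ≤ ε := by rw [hη]; exact min_le_right _ _
  obtain ⟨κ, hκ, h⟩ := main S η hη0
  obtain ⟨c, hc⟩ : ∃ c : ℝ, c = max 1 (1 / κ) := ⟨_, rfl⟩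
  have hc1 : 1 ≤ c := by rw [hc]; exact le_max_left _ _
  have hcκ : 1 ≤ c * κ := by
    have h1 : 1 / κ ≤ c := by rw [hc]; exact le_max_right _ _
    rwa [div_le_iff₀ hκ] at h1
  refine ⟨c ^ (2:ℝ), by positivity, ?_⟩
  intro k x y hk hxy hx hy n hn hAP
  have h1 := h k x y hx hy hk hxy n (by omega) hAP
  obtain ⟨V, hV⟩ : ∃ V : ℝ, V = max (|(x : ℝ)| ^ 3) ((y : ℝ) ^ 2) := ⟨_, rfl⟩
  rw [← hV] at h1 ⊢
  have hxr : (1:ℝ) ≤ |(x:ℝ)| := by
    have := Int.one_le_abs hx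
    exact_mod_cast this
  have hkr : (1:ℝ) ≤ |(k:ℝ)| := by
    have := Int.one_le_abs hk
    exact_mod_cast this
  have hx3 : |(x:ℝ)| ^ 3 ≤ V := by rw [hV]; exact le_max_left _ _
  have hy2 : (y:ℝ) ^ 2 ≤ V := by rw [hV]; exact le_max_right _ _
  have hV1 : 1 ≤ V := by
    have : (1:ℝ) ≤ |(x:ℝ)| ^ 3 := one_le_pow₀ hxr
    linarith
  have hV0 : 0 < V := by linarith
  have hnr3 : (3:ℝ) ≤ n := by exact_mod_cast hn
  have hnr0 : (0:ℝ) < n := by linarith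
  obtain ⟨e, he⟩ : ∃ e : ℝ, e = 1 - 2 / (n:ℝ) - η := ⟨_, rfl⟩
  have h2n : 2 / (n:ℝ) ≤ 2 / 3 := by
    rw [div_le_div_iff₀ hnr0 (by norm_num)]
    linarith
  have he0 : 1 / 4 ≤ e := by rw [he]; linarith
  have hepos : 0 < e := by linarith
  rw [← he] at h1
  have hVe : 0 < V ^ e := Real.rpow_pos_of_pos hV0 _
  have h2 : V ^ e ≤ c * |(k:ℝ)| := by
    calc V ^ e ≤ (c * κ) * V ^ e := le_mul_of_one_le_left hVe.le hcκ
      _ = c * (κ * V ^ e) := by ring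
      _ ≤ c * |(k:ℝ)| := by gcongr
  have hc2 : c ≤ c ^ (2:ℝ) := by
    calc c = c ^ (1:ℝ) := (Real.rpow_one _).symm
      _ ≤ c ^ (2:ℝ) := Real.rpow_le_rpow_of_exponent_le hc1 (by norm_num)
  constructor
  · -- the bound for `x` and `y`
    have h3 : V ^ (1 / 2 : ℝ) ≤ (c * |(k:ℝ)|) ^ (1 / (2 * e)) := by
      have h4 := Real.rpow_le_rpow hVe.le h2 (by positivity : (0:ℝ) ≤ 1 / (2 * e))
      rw [← Real.rpow_mul hV0.le] at h4
      have h5 : e * (1 / (2 * e)) = 1 / 2 := by field_simp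
      rwa [h5] at h4
    have h6 : max |(x:ℝ)| |(y:ℝ)| ≤ V ^ (1 / 2 : ℝ) := by
      rw [← Real.sqrt_eq_rpow]
      refine max_le (Real.le_sqrt_of_sq_le ?_) (Real.le_sqrt_of_sq_le ?_)
      · calc |(x:ℝ)| ^ 2 ≤ |(x:ℝ)| ^ 3 := pow_le_pow_right₀ hxr (by norm_num)
          _ ≤ V := hx3
      · rw [sq_abs]
        exact hy2
    have h7 : 1 / (2 * e) ≤ 2 := by
      rw [div_le_iff₀ (by positivity)]
      linarith
    have h8 : 1 / (2 * e) ≤ (n : ℝ) / (2 * (n - 2)) + ε := by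
      have hn2 : 0 < (n:ℝ) - 2 := by linarith
      obtain ⟨E, hE⟩ : ∃ E : ℝ, E = 1 - 2 / (n:ℝ) := ⟨_, rfl⟩
      have hE1 : E = ((n:ℝ) - 2) / n := by rw [hE]; field_simp
      have hE0 : 1 / 3 ≤ E := by rw [hE]; linarith
      have hEpos : 0 < E := by linarith
      have hnE : (n : ℝ) / (2 * (n - 2)) = 1 / (2 * E) := by
        rw [hE1]
        field_simp
      have heE : e = E - η := by rw [he, hE]
      rw [hnE]
      have h9 : 1 / (2 * e) - 1 / (2 * E) = η / (2 * e * E) := by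
        rw [heE]
        have : E - η ≠ 0 := by rw [← heE]; exact hepos.ne'
        field_simp
        ring
      have h10 : η / (2 * e * E) ≤ ε := by
        rw [div_le_iff₀ (by positivity)]
        have h11 : 1 / 6 ≤ 2 * e * E := by nlinarith
        nlinarith
      linarith
    calc max |(x:ℝ)| |(y:ℝ)| ≤ V ^ (1 / 2 : ℝ) := h6
      _ ≤ (c * |(k:ℝ)|) ^ (1 / (2 * e)) := h3
      _ = c ^ (1 / (2 * e)) * |(k:ℝ)| ^ (1 / (2 * e)) :=
          Real.mul_rpow (by linarith) (by linarith)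
      _ ≤ c ^ (2:ℝ) * |(k:ℝ)| ^ ((n : ℝ) / (2 * (n - 2)) + ε) := by
          refine mul_le_mul (Real.rpow_le_rpow_of_exponent_le hc1 h7)
            (Real.rpow_le_rpow_of_exponent_le hkr h8) (by positivity) (by positivity)
  · have h3 : V ^ (1 - 2 / (n:ℝ) - ε) ≤ V ^ e := by
      apply Real.rpow_le_rpow_of_exponent_le hV1
      rw [he]
      linarith
    calc V ^ (1 - 2 / (n:ℝ) - ε) ≤ V ^ e := h3
      _ ≤ c * |(k:ℝ)| := h2
      _ ≤ c ^ (2:ℝ) * |(k:ℝ)| := by gcongr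

end Pool.Agent.Results.MP_f2148a_nt.PowerQuotients
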